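import Pool.Agent.K3h5.PZ.Stm

/-!
# The discrete Wirtinger inequality, by Picone's identity
-/

set_option autoImplicit false

namespace Pool.Agent.K3h83.PZ

open Pool.Agent.K3h40.Cyc Pool.Agent.K3h5.PZ Finset

variable {d : ℕ}

/-- a solution `f` of the second order recurrence, with its partner `h` -/
structure Sol (f h : ZMod (d + 3) → ℝ) (lam : ZMod (d + 3) → ℝ) (T : ℝ) : Prop where
  one : ∀ k, f (k + 2) - f k = T * lam (k + 1) * h (k + 1)
  two : ∀ k, h (k + 2) - h k = -(T * lam (k + 1) * f (k + 1))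

/-- summation by parts -/
theorem sbp {f h lam : ZMod (d + 3) → ℝ} {T : ℝ} (hl : ∀ j, 0 < lam j) (hs : Sol f h lam T)
    (b : ZMod (d + 3) → ℝ) :
    ∑ k, (f (k + 2) - f k) * (b (k + 2) - b k) / lam (k + 1) = T ^ 2 * ∑ k, lam k * (f k * b k) := by
  have e1 : ∀ k, (f (k + 2) - f k) * (b (k + 2) - b k) / lam (k + 1) =
      T * h (k + 2 - 1) * b (k + 2) - T * h (k + 1) * b k := by
    intro k
    have h1 : k + 2 - 1 = k + 1 := by ring
    rw [h1, hs.one k]
    field_simp [(hl (k + 1)).ne']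
  have e2 : ∑ k, T * h (k + 2 - 1) * b (k + 2) = ∑ k, T * h (k - 1) * b k :=
    Equiv.sum_comp (Equiv.addRight (2 : ZMod (d + 3))) (fun k => T * h (k - 1) * b k)
  rw [Finset.sum_congr rfl (fun k _ => e1 k), Finset.sum_sub_distrib, e2,
    ← Finset.sum_sub_distrib, Finset.mul_sum]
  apply Finset.sum_congr rfl
  intro k _
  have h2 := hs.two (k - 1)
  have h3 : k - 1 + 2 = k + 1 := by ring
  have h4 : k - 1 + 1 = k := by ring
  rw [h3, h4] at h2
  linear_combination (-T * b k) * h2

/-- the real combinations of the coordinates of `G` are solutions -/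
theorem sol_of_rec {G : ZMod (d + 3) → ℂ} {lam : ZMod (d + 3) → ℝ} {T : ℝ} (hr : Rec G lam T)
    (x y : ℝ) : Sol (fun k => x * (G k).re + y * (G k).im) (fun k => x * (G k).im - y * (G k).re)
      lam T := by
  have h1 : ∀ k, (G (k + 2)).re - (G k).re = T * lam (k + 1) * (G (k + 1)).im := by
    intro k
    have := congrArg Complex.re (hr k)
    simpa using this
  have h2 : ∀ k, (G (k + 2)).im - (G k).im = -(T * lam (k + 1) * (G (k + 1)).re) := by
    intro k
    have := congrArg Complex.im (hr k)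
    simpa using this
  constructor
  · intro k
    linear_combination x * h1 k + y * h2 k
  · intro k
    linear_combination x * h2 k - y * h1 k

/-- Picone's inequality for one edge -/
theorem edge {a a' f f' b b' : ℝ} (hb : f * b = a ^ 2) (hb' : f' * b' = a' ^ 2)
    (h : 0 < f * f' ∨ (f = 0 ∧ a = 0 ∧ b = 0) ∨ (f' = 0 ∧ a' = 0 ∧ b' = 0) ∨
      (a = 0 ∧ a' = 0 ∧ b = 0 ∧ b' = 0)) :
    (f' - f) * (b' - b) ≤ (a' - a) ^ 2 := by
  rcases h with h | ⟨h1, h2, h3⟩ | ⟨h1, h2, h3⟩ | ⟨h1, h2, h3, h4⟩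
  · have key : 0 ≤ (f * f') * ((a' - a) ^ 2 - (f' - f) * (b' - b)) := by
      have : (f * f') * ((a' - a) ^ 2 - (f' - f) * (b' - b)) = (f' * a - f * a') ^ 2 := by
        linear_combination (-(f * f') + f' ^ 2) * hb + (-(f * f') + f ^ 2) * hb'
      rw [this]
      positivity
    have := nonneg_of_mul_nonneg_right key h
    linarith
  · subst h1 h2 h3
    nlinarith
  · subst h1 h2 h3
    nlinarith
  · subst h1 h2 h3 h4
    simp

theorem wdg_real (a b : ℝ) (u v : ℂ) : wdg ((a : ℂ) * u) ((b : ℂ) * v) = a * b * wdg u v := by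
  simp [wdg]
  ring

theorem pos_sign {G : ZMod (d + 3) → ℂ} (hp : Pos (d := d) G) (i j : ZMod (d + 3))
    (h : ZMod.val i < ZMod.val j) :
    0 < (-1 : ℝ) ^ (ZMod.val i) * (-1 : ℝ) ^ (ZMod.val j) * wdg (G i) (G j) := by
  have h1 : (show Fin (d + 3) from i) < (show Fin (d + 3) from j) := h
  have h2 := hp (show Fin (d + 3) from i) (show Fin (d + 3) from j) h1
  unfold ee at h2
  rw [wdg_real] at h2
  exact h2

/-- the inequality for sequences vanishing at `0`, `1` and `-1` -/
theorem wirt0 (hd : Even d) (hd0 : 0 < d) {G : ZMod (d + 3) → ℂ} {lam : ZMod (d + 3) → ℝ} {T : ℝ}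
    (hl : ∀ j, 0 < lam j) (hr : Rec G lam T) (hp : Pos (d := d) G) (a : ZMod (d + 3) → ℝ)
    (h0 : a 0 = 0) (h1 : a 1 = 0) (h2 : a (-1) = 0) :
    T ^ 2 * ∑ j, lam j * a j ^ 2 ≤ ∑ k, (a (k + 2) - a k) ^ 2 / lam (k + 1) := by
  classical
  let f : ZMod (d + 3) → ℝ := fun k => wdg (G 0) (G k)
  let b : ZMod (d + 3) → ℝ := fun k => a k ^ 2 / f k
  have hf0 : f 0 = 0 := wdg_self _
  have hb0 : b 0 = 0 := by simp [b, hf0]
  have hsg : ∀ k : ZMod (d + 3), k ≠ 0 → 0 < (-1 : ℝ) ^ (ZMod.val k) * f k := by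
    intro k hk
    have hk' : ZMod.val (0 : ZMod (d + 3)) < ZMod.val k := by
      rw [ZMod.val_zero]
      exact ZMod.val_pos.mpr hk
    have := pos_sign hp 0 k hk'
    simpa using this
  have hfne : ∀ k : ZMod (d + 3), k ≠ 0 → f k ≠ 0 := by
    intro k hk h
    have := hsg k hk
    rw [h, mul_zero] at this
    exact lt_irrefl _ this
  have hfb : ∀ k, f k * b k = a k ^ 2 := by
    intro k
    by_cases hk : k = 0
    · subst hk
      rw [hf0, h0]
      simp
    · simp only [b]
      field_simp [hfne k hk]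
  have hsol : Sol f (fun k => -(G 0).im * (G k).im - (G 0).re * (G k).re) lam T := by
    have := sol_of_rec hr (-(G 0).im) (G 0).re
    have e : f = fun k => -(G 0).im * (G k).re + (G 0).re * (G k).im := by
      funext k
      simp only [f, wdg]
      ring
    rw [e]
    exact this
  have hedge : ∀ k, (f (k + 2) - f k) * (b (k + 2) - b k) ≤ (a (k + 2) - a k) ^ 2 := by
    intro k
    apply edge (hfb k) (hfb (k + 2))
    by_cases hk0 : k = 0
    · right; left
      subst hk0
      exact ⟨hf0, h0, hb0⟩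
    by_cases hk1 : k = -1
    · right; right; right
      subst hk1
      have e : (-1 : ZMod (d + 3)) + 2 = 1 := by ring
      rw [e]
      refine ⟨h2, h1, ?_, ?_⟩
      · simp [b, h2]
      · simp [b, h1]
    by_cases hk2 : k + 2 = 0
    · right; right; left
      rw [hk2]
      exact ⟨hf0, h0, hb0⟩
    left
    have hval : ZMod.val (k + 2) = ZMod.val k + 2 := by
      have hv2 : ZMod.val (2 : ZMod (d + 3)) = 2 := by
        have := ZMod.val_natCast_of_lt (n := d + 3) (a := 2) (by omega)
        exact_mod_cast this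
      rw [ZMod.val_add_of_lt, hv2]
      rw [hv2]
      by_contra hcon
      push Not at hcon
      have hlt := ZMod.val_lt k
      have hk3 : ((ZMod.val k : ℕ) : ZMod (d + 3)) = k := ZMod.natCast_zmod_val k
      have hcase : ZMod.val k = d + 1 ∨ ZMod.val k = d + 2 := by omega
      rcases hcase with h | h
      · apply hk2
        rw [← hk3, h]
        have := ZMod.natCast_self (d + 3)
        push_cast at this ⊢
        linear_combination this
      · apply hk1
        rw [← hk3, h]
        have := ZMod.natCast_self (d + 3)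
        push_cast at this ⊢
        linear_combination this
    have s1 := hsg k hk0
    have s2 := hsg (k + 2) hk2
    rw [hval, pow_add] at s2
    have s3 := mul_pos s1 s2
    have s4 : (-1 : ℝ) ^ (ZMod.val k) * (-1 : ℝ) ^ (ZMod.val k) = 1 := neg_one_pow_sq _
    have s5 : (-1 : ℝ) ^ ZMod.val k * f k * ((-1) ^ ZMod.val k * (-1) ^ 2 * f (k + 2)) =
        f k * f (k + 2) := by
      linear_combination (f k * f (k + 2)) * s4
    rw [s5] at s3
    exact s3
  have hsum := sbp hl hsol b
  have e1 : ∑ k, lam k * (f k * b k) = ∑ k, lam k * a k ^ 2 :=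
    Finset.sum_congr rfl (fun k _ => by rw [hfb k])
  rw [e1] at hsum
  rw [← hsum]
  apply Finset.sum_le_sum
  intro k _
  exact div_le_div_of_nonneg_right (hedge k) (hl (k + 1)).le

/-- brick POI -/
theorem t_POI : S_POI := by
  intro d hd hd0 G lam T hT hl hr hsum hp a
  classical
  set D : ℝ := wdg (G 1) (G (-1)) + wdg (G 0) (G 1) + wdg (G (-1)) (G 0) with hDdef
  have hv1 : ZMod.val (1 : ZMod (d + 3)) = 1 := by
    have := ZMod.val_natCast_of_lt (n := d + 3) (a := 1) (by omega)
    exact_mod_cast this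
  have hvm : ZMod.val (-1 : ZMod (d + 3)) = d + 2 := by
    have h1 : (-1 : ZMod (d + 3)) = ((d + 2 : ℕ) : ZMod (d + 3)) := by
      have := ZMod.natCast_self (d + 3)
      push_cast at this ⊢
      linear_combination -this
    rw [h1]
    exact ZMod.val_natCast_of_lt (by omega)
  have hev : (-1 : ℝ) ^ (d + 2) = 1 := by
    apply Even.neg_one_pow
    exact hd.add (by decide)
  have p1 : wdg (G 0) (G 1) < 0 := by
    have := pos_sign hp 0 1 (by rw [ZMod.val_zero, hv1]; norm_num)
    rw [ZMod.val_zero, hv1] at this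
    linarith
  have p2 : 0 < wdg (G 0) (G (-1)) := by
    have := pos_sign hp 0 (-1) (by rw [ZMod.val_zero, hvm]; omega)
    rw [ZMod.val_zero, hvm, hev] at this
    linarith
  have p3 : wdg (G 1) (G (-1)) < 0 := by
    have := pos_sign hp 1 (-1) (by rw [hv1, hvm]; omega)
    rw [hv1, hvm, hev] at this
    linarith
  have hD : D ≠ 0 := by
    have := wdg_comm (G (-1)) (G 0)
    have : D < 0 := by rw [hDdef]; linarith
    exact this.ne
  -- the affine correction
  obtain ⟨c0, x, y, e0, e1, e2⟩ : ∃ c0 x y : ℝ, a 0 = c0 + x * (G 0).re + y * (G 0).im ∧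
      a 1 = c0 + x * (G 1).re + y * (G 1).im ∧ a (-1) = c0 + x * (G (-1)).re + y * (G (-1)).im := by
    refine ⟨(a 0 * wdg (G 1) (G (-1)) + a 1 * wdg (G (-1)) (G 0) + a (-1) * wdg (G 0) (G 1)) / D,
      (a 0 * ((G 1).im - (G (-1)).im) + a 1 * ((G (-1)).im - (G 0).im) +
        a (-1) * ((G 0).im - (G 1).im)) / D,
      -(a 0 * ((G 1).re - (G (-1)).re) + a 1 * ((G (-1)).re - (G 0).re) +
        a (-1) * ((G 0).re - (G 1).re)) / D, ?_, ?_, ?_⟩
    all_goals
      field_simp
      rw [hDdef]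
      simp only [wdg]
      ring
  set f : ZMod (d + 3) → ℝ := fun k => x * (G k).re + y * (G k).im with hf
  have hsol : Sol f (fun k => x * (G k).im - y * (G k).re) lam T := sol_of_rec hr x y
  have hlf : ∑ k, lam k * f k = 0 := by
    have h1 := congrArg Complex.re hsum
    have h2 := congrArg Complex.im hsum
    simp only [Complex.re_sum, Complex.im_sum, Complex.re_ofReal_mul, Complex.im_ofReal_mul,
      Complex.zero_re, Complex.zero_im] at h1 h2
    have : ∑ k, lam k * f k = x * ∑ k, lam k * (G k).re + y * ∑ k, lam k * (G k).im := by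
      rw [Finset.mul_sum, Finset.mul_sum, ← Finset.sum_add_distrib]
      apply Finset.sum_congr rfl
      intro k _
      simp only [hf]
      ring
    rw [this, h1, h2]
    ring
  set a' : ZMod (d + 3) → ℝ := fun k => a k - c0 - f k with ha'
  have key := wirt0 hd hd0 hl hr hp a' (by simp only [ha', hf]; linarith)
    (by simp only [ha', hf]; linarith) (by simp only [ha', hf]; linarith)
  have hL : 0 < ∑ j, lam j := Finset.sum_pos (fun j _ => hl j) ⟨0, Finset.mem_univ _⟩
  -- left side
  have sb1 := sbp hl hsol a'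
  have sb2 := sbp hl hsol f
  have l1 : ∑ k, (a (k + 2) - a k) ^ 2 / lam (k + 1) =
      ∑ k, (a' (k + 2) - a' k) ^ 2 / lam (k + 1) +
        2 * ∑ k, (f (k + 2) - f k) * (a' (k + 2) - a' k) / lam (k + 1) +
        ∑ k, (f (k + 2) - f k) * (f (k + 2) - f k) / lam (k + 1) := by
    rw [Finset.mul_sum, ← Finset.sum_add_distrib, ← Finset.sum_add_distrib]
    apply Finset.sum_congr rfl
    intro k _
    simp only [ha']
    have := (hl (k + 1)).ne'
    field_simp
    ring
  have l2 : ∑ k, lam k * a k ^ 2 = ∑ k, lam k * a' k ^ 2 + 2 * ∑ k, lam k * (f k * a' k) +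
      ∑ k, lam k * (f k * f k) + 2 * c0 * ∑ k, lam k * a' k + 2 * c0 * ∑ k, lam k * f k +
      c0 ^ 2 * ∑ k, lam k := by
    simp only [Finset.mul_sum, ← Finset.sum_add_distrib]
    apply Finset.sum_congr rfl
    intro k _
    simp only [ha']
    ring
  have l3 : ∑ k, lam k * a k = ∑ k, lam k * a' k + ∑ k, lam k * f k + c0 * ∑ k, lam k := by
    simp only [Finset.mul_sum, ← Finset.sum_add_distrib]
    apply Finset.sum_congr rfl
    intro k _
    simp only [ha']
    ring
  rw [hlf] at l2 l3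
  rw [l1, sb1, sb2, l2, l3]
  set L := ∑ j, lam j
  set A := ∑ k, lam k * a' k
  have e5 : (A + 0 + c0 * L) ^ 2 / L = A ^ 2 / L + 2 * c0 * A + c0 ^ 2 * L := by
    field_simp
    ring
  rw [e5]
  have e6 : 0 ≤ T ^ 2 * (A ^ 2 / L) := by positivity
  linarith

end Pool.Agent.K3h83.PZ
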